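import Pool.Agent.Helper97.Tate.Goals

/-! # TATE-NIN (MP_d3128a_ag): nine points on the cubic. -/

set_option autoImplicit false

noncomputable section

namespace Pool.Agent.Helper48.Tate.NIN

open Module Pool.Agent.Helper97.Tate

lemma cub_hom {A : Type} [CommRing A] (α β γ : A) : (cub α β γ).IsHomogeneous 3 := by
  unfold cub
  have hX : ∀ i : Fin 3, (MvPolynomial.X i : MvPolynomial (Fin 3) A).IsHomogeneous 1 :=
    fun i => MvPolynomial.isHomogeneous_X A i
  have h1 : (MvPolynomial.X 0 * MvPolynomial.X 1 * MvPolynomial.X 2 :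
      MvPolynomial (Fin 3) A).IsHomogeneous 3 := ((hX 0).mul (hX 1)).mul (hX 2)
  have h2 : ∀ (c : A) (i : Fin 3), (MvPolynomial.C c * MvPolynomial.X i ^ 3 :
      MvPolynomial (Fin 3) A).IsHomogeneous 3 := by
    intro c i
    have := (MvPolynomial.isHomogeneous_C (Fin 3) c).mul ((hX i).pow 3)
    simpa using this
  exact ((h1.sub (h2 α 0)).sub (h2 β 1)).sub (h2 γ 2)

/-- the point of a parameter. -/
lemma eval_pt {k : Type} [Field k] (x : kˣ) (z : MvPolynomial (Fin 3) (KK k)) :
    MvPolynomial.eval (fun r => PowerSeries.constantCoeff (ph x r)) z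
      = PowerSeries.constantCoeff (MvPolynomial.aeval (ph x) z) := by
  induction z using MvPolynomial.induction_on with
  | C a =>
    simp
  | add p q hp hq => rw [map_add, map_add, map_add, hp, hq]
  | mul_X p i hp => rw [map_mul, map_mul, map_mul, hp, MvPolynomial.eval_X, MvPolynomial.aeval_X]

lemma WW_zero_iff {K : Type} [Field K] (P : ℕ → Fin 3 → K) (m : ℕ → ℕ) (d : ℕ)
    (z : MvPolynomial (Fin 3) K) : z ∈ WW P m ∅ d 0 ↔
      z ∈ MvPolynomial.homogeneousSubmodule (Fin 3) K d ∧ ∀ i < 9, z ∈ Van (P i) (m i) := by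
  have hF : Fm K ((d : ℤ) - 3 * ((0 : ℕ) : ℤ)) = MvPolynomial.homogeneousSubmodule (Fin 3) K d := by
    unfold Fm
    rw [if_pos (by simp)]
    simp
  unfold WW
  rw [hF]
  simp only [Submodule.mem_inf, Submodule.mem_iInf, Finset.mem_range, Finset.notMem_empty,
    IsEmpty.forall_iff, implies_true, and_true, Nat.sub_zero]

lemma WW_one {K : Type} [Field K] (P : ℕ → Fin 3 → K) (m : ℕ → ℕ) (d : ℕ) (hd : 3 ≤ d) :
    WW P m ∅ d 1 = WW P (fun i => m i - 1) ∅ (d - 3) 0 := by
  have hF : ((d : ℤ) - 3 * ((1 : ℕ) : ℤ)) = (((d - 3 : ℕ) : ℤ) - 3 * ((0 : ℕ) : ℤ)) := by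
    push_cast [Nat.cast_sub hd]
    ring
  unfold WW
  rw [hF]
  simp only [Nat.sub_zero, Finset.notMem_empty, iInf_false, iInf_top]

lemma choose_two (m : ℕ) : (Nat.choose (m + 1) 2 : ℤ) - Nat.choose (m - 1 + 1) 2 = m := by
  rcases m with _ | m
  · simp
  · simp only [Nat.add_sub_cancel]
    rw [Nat.choose_succ_succ' (m + 1) 1]
    push_cast
    simp

lemma choose_three (d : ℕ) (hd : 3 ≤ d) :
    (Nat.choose (d + 2) 2 : ℤ) - Nat.choose (d - 3 + 2) 2 = 3 * d := by
  obtain ⟨e, rfl⟩ := Nat.exists_eq_add_of_le hd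
  have h1 : 3 + e - 3 + 2 = e + 2 := by omega
  have h2 : 3 + e + 2 = e + 2 + 1 + 1 + 1 := by omega
  rw [h1, h2, Nat.choose_succ_succ' (e + 2 + 1 + 1) 1, Nat.choose_succ_succ' (e + 2 + 1) 1,
    Nat.choose_succ_succ' (e + 2) 1]
  push_cast
  simp
  ring

theorem t (hTWO : S_TWO) (hLEV : S_LEV) (hDRP : S_DRP) (hCUV : S_CUV) (hVAA : S_VAA)
    (hVAB : S_VAB) : S_NIN := by
  intro k _ _ α β γ hcub w hw P hP m d
  have hg3 : (cubK α β γ).IsHomogeneous 3 := cub_hom _ _ _
  have hgP : ∀ i < 9, cubK α β γ ∈ Van (P i) 1 ∧ cubK α β γ ∉ Van (P i) 2 := by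
    intro i hi
    have hPi := hP ⟨i, hi⟩
    have hPi' : P i = fun r => PowerSeries.constantCoeff (ph (w ⟨i, hi⟩) r) := hPi
    obtain ⟨h1, h2, -⟩ := hCUV k α β γ hcub (w ⟨i, hi⟩) (w ⟨i, hi⟩) (w ⟨i, hi⟩)
    obtain ⟨-, hv1, hv2, -⟩ := hVAB (KK k) (P i)
    constructor
    · rw [hv1, hPi', eval_pt, h1, map_zero]
    · apply hv2 _ 0
      rw [hPi', eval_pt]
      exact h2
  induction d using Nat.strong_induction_on generalizing m with
  | _ d ih =>
    intro hm hd hor
    rcases Nat.eq_zero_or_pos (m 2) with h2 | h2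
    · -- two points
      have hm0 : ∀ i, 2 ≤ i → m i = 0 := fun i hi => by
        have := hm hi
        omega
      have hlin : LinearIndependent (KK k) ![P 0, P 1] := by
        have h01 : w 0 ≠ w 1 := fun h => by
          have := hw h
          exact absurd this (by decide)
        have := (hCUV k α β γ hcub (w 0) (w 0) (w 1)).2.2 h01
        have e0 : P 0 = fun r => PowerSeries.constantCoeff (ph (w 0) r) := hP 0
        have e1 : P 1 = fun r => PowerSeries.constantCoeff (ph (w 1) r) := hP 1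
        rw [e0, e1]
        exact this
      have hW : WW P m ∅ d 0 = Fm (KK k) d ⊓ Van (P 0) (m 0) ⊓ Van (P 1) (m 1) := by
        ext z
        rw [WW_zero_iff]
        have hF : Fm (KK k) (d : ℤ) = MvPolynomial.homogeneousSubmodule (Fin 3) (KK k) d := by
          unfold Fm
          rw [if_pos (by simp)]
          simp
        rw [hF, Submodule.mem_inf, Submodule.mem_inf]
        constructor
        · rintro ⟨h, h'⟩
          exact ⟨⟨h, h' 0 (by norm_num)⟩, h' 1 (by norm_num)⟩
        · rintro ⟨⟨h, h0⟩, h1⟩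
          refine ⟨h, fun i hi => ?_⟩
          rcases Nat.lt_or_ge i 2 with hi2 | hi2
          · interval_cases i
            · exact h0
            · exact h1
          · rw [hm0 i hi2]
            exact (hVAA (KK k) (P i)).2.2.2 z
      rw [hW]
      have h := hTWO (KK k) (P 0) (P 1) hlin d (m 0) (m 1) (by omega)
      have hs : ∑ i ∈ Finset.range 9, (Nat.choose (m i + 1) 2 : ℤ)
          = Nat.choose (m 0 + 1) 2 + Nat.choose (m 1 + 1) 2 := by
        simp only [Finset.sum_range_succ, Finset.sum_range_zero, zero_add]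
        rw [hm0 2 le_rfl, hm0 3 (by norm_num), hm0 4 (by norm_num), hm0 5 (by norm_num),
          hm0 6 (by norm_num), hm0 7 (by norm_num), hm0 8 (by norm_num)]
        simp
      rw [hs]
      linarith
    · -- one step down
      have hm01 : m 1 ≤ m 0 := hm (by norm_num)
      have hm12 : m 2 ≤ m 1 := hm (by norm_num)
      have hd3 : 3 ≤ d := by omega
      have hlt : ∑ i ∈ Finset.range 9, m i < 3 * d := by
        rcases hor with h | h
        · exact h
        · omega
      obtain ⟨κ, hκ⟩ : ∃ κ, 3 * d = ∑ i ∈ Finset.range 9, m i + κ := Nat.exists_eq_add_of_le hlt.le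
      have hκ1 : 1 ≤ κ := by omega
      have hκ' : (κ : ℤ) = 3 * d - ∑ i : Fin 9, ((m (i : ℕ) : ℕ) : ℤ) := by
        have e1 : ∑ i : Fin 9, ((m (i : ℕ) : ℕ) : ℤ) = ((∑ i ∈ Finset.range 9, m i : ℕ) : ℤ) := by
          rw [← Fin.sum_univ_eq_sum_range]
          push_cast
          rfl
        rw [e1]
        have : ((3 * d : ℕ) : ℤ) = ((∑ i ∈ Finset.range 9, m i + κ : ℕ) : ℤ) := by rw [hκ]
        push_cast at this ⊢
        linarith
      obtain ⟨a, ha, -⟩ := hLEV k α β γ hcub w hw d (fun i => ((m (i : ℕ) : ℕ) : ℤ)) κ hκ1 hκ'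
      obtain ⟨-, hdrp, hfin⟩ := hDRP (KK k) (cubK α β γ) P m ∅ d hg3 hgP (by simp)
      have hSys : Sys w d (fun i => (((m (i : ℕ) : ℕ) : ℤ)).toNat) = WW P m ∅ d 0 := by
        ext z
        rw [WW_zero_iff]
        unfold Sys
        rw [Submodule.mem_inf, Submodule.mem_iInf]
        simp only [Int.toNat_natCast]
        refine and_congr Iff.rfl ⟨fun h i hi => ?_, fun h i => ?_⟩
        · have := h ⟨i, hi⟩
          have hPi' : P i = fun r => PowerSeries.constantCoeff (ph (w ⟨i, hi⟩) r) := hP ⟨i, hi⟩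
          rw [hPi']
          exact this
        · have := h i i.2
          rw [hP i] at this
          exact this
      have hfd : FiniteDimensional (KK k) (Sys w d (fun i => (((m (i : ℕ) : ℕ) : ℤ)).toNat)) := by
        rw [hSys]
        exact hfin 0
      have hfd1 : FiniteDimensional (KK k) (WW P m ∅ d 1) := hfin 1
      have hrn := LinearMap.finrank_range_add_finrank_ker (K := KK k)
        (V := Sys w d (fun i => (((m (i : ℕ) : ℕ) : ℤ)).toNat)) (V₂ := Fin κ → KK k) a
      have hr : finrank (KK k) (LinearMap.range a) ≤ κ := by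
        have := Submodule.finrank_le (LinearMap.range a)
        rwa [Module.finrank_fin_fun] at this
      have hker : finrank (KK k) (LinearMap.ker a) ≤ finrank (KK k) (WW P m ∅ d 1) := by
        rw [← Submodule.finrank_map_subtype_eq]
        have hle : (LinearMap.ker a).map
            (Sys w d (fun i => (((m (i : ℕ) : ℕ) : ℤ)).toNat)).subtype
            ≤ (WW P m ∅ d 1).map (LinearMap.mulLeft (KK k) (cubK α β γ)) := by
          rintro _ ⟨z, hz, rfl⟩
          obtain ⟨y, hy⟩ := ha z (LinearMap.mem_ker.mp hz)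
          have hzW : (z : MvPolynomial (Fin 3) (KK k)) ∈ WW P m ∅ d 0 := by
            rw [← hSys]
            exact z.2
          rw [hy] at hzW
          refine ⟨y, hdrp 0 y hzW, ?_⟩
          rw [LinearMap.mulLeft_apply]
          exact hy.symm
        exact (Submodule.finrank_mono hle).trans (Submodule.finrank_map_le _ _)
      have hIH : (finrank (KK k) (WW P m ∅ d 1) : ℤ) ≤ (Nat.choose (d - 3 + 2) 2 : ℤ) -
          ∑ i ∈ Finset.range 9, (Nat.choose (m i - 1 + 1) 2 : ℤ) := by
        rw [WW_one P m d hd3]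
        refine ih (d - 3) (by omega) (fun i => m i - 1) (fun i j hij => ?_) ?_ ?_
        · have := hm hij
          show m j - 1 ≤ m i - 1
          omega
        · show m 0 - 1 + (m 1 - 1) + (m 2 - 1) ≤ d - 3
          omega
        · show ∑ i ∈ Finset.range 9, (m i - 1) < 3 * (d - 3) ∨ m 2 - 1 = 0
          rcases Nat.eq_zero_or_pos (m 2 - 1) with h3 | h3
          · exact Or.inr h3
          · left
            have a3 : m 3 ≤ m 2 := hm (by norm_num)
            have a4 : m 4 ≤ m 3 := hm (by norm_num)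
            have a5 : m 5 ≤ m 4 := hm (by norm_num)
            have a6 : m 6 ≤ m 5 := hm (by norm_num)
            have a7 : m 7 ≤ m 6 := hm (by norm_num)
            have a8 : m 8 ≤ m 7 := hm (by norm_num)
            simp only [Finset.sum_range_succ, Finset.sum_range_zero, zero_add] at hlt ⊢
            omega
      have hc : ∑ i ∈ Finset.range 9, (Nat.choose (m i + 1) 2 : ℤ)
          - ∑ i ∈ Finset.range 9, (Nat.choose (m i - 1 + 1) 2 : ℤ)
          = ∑ i ∈ Finset.range 9, (m i : ℤ) := by
        rw [← Finset.sum_sub_distrib]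
        exact Finset.sum_congr rfl fun i _ => choose_two (m i)
      have hc3 := choose_three d hd3
      have hSysf : finrank (KK k) (Sys w d (fun i => (((m (i : ℕ) : ℕ) : ℤ)).toNat))
          = finrank (KK k) (WW P m ∅ d 0) := by rw [hSys]
      have hrn' : (finrank (KK k) (WW P m ∅ d 0) : ℤ) ≤ κ + finrank (KK k) (WW P m ∅ d 1) := by
        have : finrank (KK k) (WW P m ∅ d 0) ≤ κ + finrank (KK k) (WW P m ∅ d 1) := by
          omega
        exact_mod_cast this
      have hκ'' : (κ : ℤ) = 3 * d - ∑ i ∈ Finset.range 9, (m i : ℤ) := by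
        have : ((3 * d : ℕ) : ℤ) = ((∑ i ∈ Finset.range 9, m i + κ : ℕ) : ℤ) := by rw [hκ]
        push_cast at this ⊢
        linarith
      linarith

end Pool.Agent.Helper48.Tate.NIN
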